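import Pool.Agent.Y419.PA.Tla
import Pool.Agent.Y417.FJ.Am
import Pool.Agent.Y961.FJ.Perm
import Pool.Agent.Y529.FJ.Ext
import Pool.Agent.R942.FJ.Det

/-!
# Amalgamated products: membership and faithfulness

Owner helper909.
-/

set_option autoImplicit false

open Pool.Agent.Y110.FJ
open Pool.Agent.Y462.SS (Closed)
open Pool.Agent.Y462.PA (Am)

namespace Run7.h909.GE

variable {C : ∀ (G : Type) [Group G], Prop}

/-- semidirect products of solvable groups and groups in the class -/
theorem sdp_mem (hC : ClosedE C) (hsol : ∀ (S : Type) [Group S], Group.IsSolvable S → C S)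
    {A H : Type} [Group A] [Group H] (hA : Group.IsSolvable A) (φ : H →* MulAut A) (hH : C H) :
    C (A ⋊[φ] H) := by
  set N : Subgroup (A ⋊[φ] H) := (SemidirectProduct.rightHom (φ := φ)).ker with hN
  have hNs : Group.IsSolvable N := by
    have h1 : (SemidirectProduct.inl : A →* A ⋊[φ] H).range = N :=
      SemidirectProduct.range_inl_eq_ker_rightHom
    have e : A ≃* N := (MonoidHom.ofInjective (SemidirectProduct.inl_injective (φ := φ))).trans
      (MulEquiv.subgroupCongr h1)
    exact Group.isSolvable_of_surjective (f := e.toMonoidHom) e.surjective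
  have hQ : C ((A ⋊[φ] H) ⧸ N) :=
    hC.base.of_injective _ _
      (QuotientGroup.quotientKerEquivOfSurjective _
        (SemidirectProduct.rightHom_surjective (φ := φ))).toMonoidHom
      (QuotientGroup.quotientKerEquivOfSurjective _
        (SemidirectProduct.rightHom_surjective (φ := φ))).injective hH
  refine Pool.Agent.Y529.FJ.t_ext C hC _ N (hsol _ hNs) hQ ?_
  intro g _
  exact hsol _ (Pool.Agent.R942.FJ.solv_sup N hNs g)

section am

variable {K A B : Type} [Group K] [Group A] [Group B] (α : K →* A) (β : K →* B)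

/-- amalgamated products with a homomorphism to a group in the class which is injective on both
factors -/
theorem am_mem (hC : ClosedE C) {P : Type} [Group P] (hP : C P) (f : A →* P) (g : B →* P) (h : ∀ c, f (α c) = g (β c))
    (hf : Function.Injective f) (hg : Function.Injective g) : C (Am α β) := by
  refine Pool.Agent.Y417.FJ.t_am (Pool.Agent.Y961.FJ.t_perm Pool.Agent.Y529.FJ.t_ext) C hC
    (Am α β) P _ _ _ (Pool.Agent.Y419.PA.amg α β) (Am.lift α β f g h) ?_ ?_ hP
  · rintro _ ⟨a, rfl⟩ h1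
    rw [Am.lift_inl] at h1
    rw [(injective_iff_map_eq_one f).1 hf a h1, map_one]
  · rintro _ ⟨b, rfl⟩ h1
    rw [Am.lift_inr] at h1
    rw [(injective_iff_map_eq_one g).1 hg b h1, map_one]

/-- reduced elements which begin and end in a certain way -/
inductive Rd : Am α β → Prop
  | base (b : B) (a : A) : b ∉ β.range → Rd (Am.inr α β b * Am.inl α β a)
  | step (b : B) (a : A) (g : Am α β) : b ∉ β.range → a ∉ α.range → Rd g →
      Rd (Am.inr α β b * Am.inl α β a * g)

/-- the elements in normal form -/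
def Nf (g : Am α β) : Prop :=
  (∃ a, g = Am.inl α β a) ∨ ∃ a g', Rd α β g' ∧ g = Am.inl α β a * g'

variable {α β}

theorem Nf.inl_mul {g : Am α β} (a : A) (h : Nf α β g) : Nf α β (Am.inl α β a * g) := by
  rcases h with ⟨a', rfl⟩ | ⟨a', g', hg', rfl⟩
  · exact Or.inl ⟨a * a', by rw [map_mul]⟩
  · exact Or.inr ⟨a * a', g', hg', by rw [map_mul, mul_assoc]⟩

theorem Rd.inr_mul {g : Am α β} (b : B) (h : Rd α β g) : Nf α β (Am.inr α β b * g) := by
  induction h with
  | base b' a hb' =>
    rw [← mul_assoc, ← map_mul]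
    by_cases hb : b * b' ∈ β.range
    · obtain ⟨c, hc⟩ := hb
      rw [← hc, ← Am.glue, ← map_mul]
      exact Or.inl ⟨_, rfl⟩
    · exact Or.inr ⟨1, _, Rd.base _ a hb, by rw [map_one, one_mul]⟩
  | step b' a g hb' ha hg _ =>
    rw [← mul_assoc, ← mul_assoc, ← map_mul]
    by_cases hb : b * b' ∈ β.range
    · obtain ⟨c, hc⟩ := hb
      rw [← hc, ← Am.glue, ← map_mul]
      exact Or.inr ⟨_, g, hg, rfl⟩
    · exact Or.inr ⟨1, _, Rd.step _ _ _ hb ha hg, by rw [map_one, one_mul]⟩

theorem Nf.inr_mul {g : Am α β} (b : B) (h : Nf α β g) : Nf α β (Am.inr α β b * g) := by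
  rcases h with ⟨a, rfl⟩ | ⟨a, g', hg', rfl⟩
  · by_cases hb : b ∈ β.range
    · obtain ⟨c, rfl⟩ := hb
      rw [← Am.glue, ← map_mul]
      exact Or.inl ⟨_, rfl⟩
    · exact Or.inr ⟨1, _, Rd.base _ a hb, by rw [map_one, one_mul]⟩
  · by_cases ha : a ∈ α.range
    · obtain ⟨c, rfl⟩ := ha
      rw [Am.glue, ← mul_assoc, ← map_mul]
      exact hg'.inr_mul _
    · by_cases hb : b ∈ β.range
      · obtain ⟨c, rfl⟩ := hb
        rw [← Am.glue, ← mul_assoc, ← map_mul]
        exact Or.inr ⟨_, _, hg', rfl⟩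
      · exact Or.inr ⟨1, _, Rd.step _ _ _ hb ha hg', by rw [map_one, one_mul, mul_assoc]⟩

/-- the projection of the free product -/
def prj (α : K →* A) (β : K →* B) : Monoid.Coprod A B →* Am α β :=
  QuotientGroup.mk' (Subgroup.normalClosure (Pool.Agent.Y462.PA.amRel α β))

theorem nf_all (g : Am α β) : Nf α β g := by
  obtain ⟨y, hy⟩ : ∃ y, prj α β y = g := QuotientGroup.mk'_surjective
    (Subgroup.normalClosure (Pool.Agent.Y462.PA.amRel α β)) g
  rw [← hy]
  have key : ∀ (y : Monoid.Coprod A B) (z : Am α β), Nf α β z → Nf α β (prj α β y * z) := by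
    intro y
    induction y using Monoid.Coprod.induction_on with
    | inl a => exact fun z hz => hz.inl_mul a
    | inr b => exact fun z hz => hz.inr_mul b
    | mul x y hx hy =>
      intro z hz
      have h1 := hx _ (hy z hz)
      rw [← mul_assoc, ← map_mul] at h1
      exact h1
  have h2 := key y 1 (Or.inl ⟨1, (map_one _).symm⟩)
  rw [mul_one] at h2
  exact h2

/-- **ping-pong** -/
theorem am_inj {H Ω : Type} [Group H] [MulAction H Ω] (Φ : Am α β →* H) (T S S' : Set Ω)
    (hA : ∀ a, Φ (Am.inl α β a) = 1 → a = 1)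
    (hT : ∀ a, ∀ v ∈ T, Φ (Am.inl α β a) • v ∈ T) (hTS : ∀ v ∈ T, v ∉ S)
    (h1 : ∀ b, b ∉ β.range → ∀ v ∈ S', Φ (Am.inr α β b) • v ∈ S)
    (h2 : ∀ a, a ∉ α.range → ∀ v ∈ S, Φ (Am.inl α β a) • v ∈ S')
    (h0 : ∃ v ∈ T, v ∈ S') : Function.Injective Φ := by
  obtain ⟨v0, hv0, hv0'⟩ := h0
  have key : ∀ g, Rd α β g → ∃ v ∈ T, Φ g • v ∈ S := by
    intro g hg
    induction hg with
    | base b a hb =>
      refine ⟨Φ (Am.inl α β a⁻¹) • v0, hT _ _ hv0, ?_⟩
      rw [map_mul, mul_smul, ← mul_smul (Φ (Am.inl α β a)), ← map_mul, ← map_mul,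
        mul_inv_cancel, map_one, map_one, one_smul]
      exact h1 b hb v0 hv0'
    | step b a g hb ha _ ih =>
      obtain ⟨v, hv, hv'⟩ := ih
      refine ⟨v, hv, ?_⟩
      rw [map_mul, map_mul, mul_smul, mul_smul]
      exact h1 b hb _ (h2 a ha _ hv')
  rw [injective_iff_map_eq_one]
  intro g hg
  rcases nf_all g with ⟨a, rfl⟩ | ⟨a, g', hg', rfl⟩
  · rw [hA a hg, map_one]
  · exfalso
    obtain ⟨v, hv, hv'⟩ := key g' hg'
    have h3 : Φ g' = Φ (Am.inl α β a⁻¹) := by
      rw [map_mul] at hg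
      rw [map_inv, map_inv]
      exact eq_inv_of_mul_eq_one_right hg
    rw [h3] at hv'
    exact hTS _ (hT _ _ hv) hv'

end am

end Run7.h909.GE
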