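import Pool.Agent.Run7.h909.GE.Ping

/-!
# Free associative algebras

Owner helper909.
-/

set_option autoImplicit false

namespace Run7.h909.GE

open Polynomial

variable (K X : Type) [Field K]

/-- homogenization -/
noncomputable def hmf : FreeAlgebra K X →ₐ[K] (FreeAlgebra K X)[X] :=
  FreeAlgebra.lift K fun x => Polynomial.C (FreeAlgebra.ι K x) * Polynomial.X

/-- the value at one -/
noncomputable def ev1 : (FreeAlgebra K X)[X] →+* FreeAlgebra K X :=
  Polynomial.eval₂RingHom' (RingHom.id _) 1 fun a => Commute.one_right a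

theorem ev1_C (a : FreeAlgebra K X) : ev1 K X (Polynomial.C a) = a := by
  simp [ev1, Polynomial.eval₂RingHom']

theorem ev1_X : ev1 K X Polynomial.X = 1 := by
  simp [ev1, Polynomial.eval₂RingHom']

theorem ev1_hmf (p : FreeAlgebra K X) : ev1 K X (hmf K X p) = p := by
  induction p using FreeAlgebra.induction with
  | grade0 r =>
    rw [AlgHom.commutes]
    exact ev1_C K X _
  | grade1 x =>
    rw [hmf, FreeAlgebra.lift_ι_apply, map_mul, ev1_C, ev1_X, mul_one]
  | mul a b ha hb => rw [map_mul, map_mul, ha, hb]
  | add a b ha hb => rw [map_add, map_add, ha, hb]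

theorem coeff_hmf (p : FreeAlgebra K X) :
    Polynomial.constantCoeff (hmf K X p) =
      algebraMap K (FreeAlgebra K X) (FreeAlgebra.algebraMapInv p) := by
  induction p using FreeAlgebra.induction with
  | grade0 r =>
    rw [AlgHom.commutes, FreeAlgebra.algebraMap_leftInverse r]
    exact Polynomial.coeff_C_zero
  | grade1 x =>
    rw [hmf, FreeAlgebra.lift_ι_apply, map_mul, Polynomial.constantCoeff_apply,
      Polynomial.constantCoeff_apply, Polynomial.coeff_X_zero, mul_zero]
    simp [FreeAlgebra.algebraMapInv]
  | mul a b ha hb => rw [map_mul, map_mul, map_mul, map_mul, ha, hb]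
  | add a b ha hb => rw [map_add, map_add, map_add, map_add, ha, hb]

theorem hmf_inj : Function.Injective (hmf K X) := by
  intro p q e
  rw [← ev1_hmf K X p, ← ev1_hmf K X q, e]

theorem free_deg : DegRing (algebraMap K (FreeAlgebra K X))
    (fun p => (hmf K X p).natDegree)
    (FreeAlgebra.algebraMapInv (R := K) (X := X)).toRingHom.toAddMonoidHom where
  deg_zero x := by
    constructor
    · intro h
      obtain ⟨c, hc⟩ := Polynomial.natDegree_eq_zero.1 h
      refine ⟨FreeAlgebra.algebraMapInv x, ?_⟩
      have h1 := coeff_hmf K X x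
      have h2 := ev1_hmf K X x
      rw [← hc] at h1 h2
      rw [ev1_C] at h2
      rw [← h1, Polynomial.constantCoeff_apply, Polynomial.coeff_C_zero, h2]
    · rintro ⟨k, rfl⟩
      show (hmf K X (algebraMap K (FreeAlgebra K X) k)).natDegree = 0
      rw [AlgHom.commutes]
      exact Polynomial.natDegree_C _
  deg_add x y := by
    show (hmf K X (x + y)).natDegree ≤ _
    rw [map_add]
    exact Polynomial.natDegree_add_le _ _
  deg_mul x y hx hy := by
    show (hmf K X (x * y)).natDegree = _
    rw [map_mul]
    exact Polynomial.natDegree_mul (fun e => hx ((map_eq_zero_iff _ (hmf_inj K X)).1 e))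
      (fun e => hy ((map_eq_zero_iff _ (hmf_inj K X)).1 e))
  pi_coe k := FreeAlgebra.algebraMap_leftInverse k
  pi_left k x := by
    show FreeAlgebra.algebraMapInv (algebraMap K (FreeAlgebra K X) k * x) = _
    rw [map_mul, FreeAlgebra.algebraMap_leftInverse k]
    rfl
  pi_right x k := by
    show FreeAlgebra.algebraMapInv (x * algebraMap K (FreeAlgebra K X) k) = _
    rw [map_mul, FreeAlgebra.algebraMap_leftInverse k]
    rfl

end Run7.h909.GE
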