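import Pool.Agent.Run7.h909.GE.Tri

/-!
# The amalgamated product acts faithfully

Owner helper909.
-/

set_option autoImplicit false

open Pool.Agent.Y110.FJ
open Pool.Agent.Y462.SS (Closed)
open Pool.Agent.Y462.PA (Am)

namespace Run7.h909.GE

open Tri

variable {C : ∀ (G : Type) [Group G], Prop}

variable {K R : Type} [DivisionRing K] [Ring R] {ι : K →+* R} {deg : R → ℕ} {π : R →+ K}

namespace DegRing

theorem inj (h : DegRing ι deg π) : Function.Injective ι := fun a b e => by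
  rw [← h.pi_coe a, ← h.pi_coe b, e]

theorem deg_coe (h : DegRing ι deg π) (k : K) : deg (ι k) = 0 := (h.deg_zero _).2 ⟨k, rfl⟩

theorem deg_z (h : DegRing ι deg π) : deg 0 = 0 := by rw [← map_zero ι, h.deg_coe]

theorem coe_ne (h : DegRing ι deg π) {k : K} (hk : k ≠ 0) : ι k ≠ 0 := fun e =>
  hk (h.inj (e.trans (map_zero ι).symm))

theorem ne_zero (h : DegRing ι deg π) {x : R} (hx : 0 < deg x) : x ≠ 0 := by
  rintro rfl
  rw [h.deg_z] at hx
  exact lt_irrefl _ hx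

theorem mul_ne (h : DegRing ι deg π) {x y : R} (hx : x ≠ 0) (hy : y ≠ 0) : x * y ≠ 0 := by
  intro e
  have h1 := h.deg_mul x y hx hy
  rw [e, h.deg_z] at h1
  obtain ⟨k, rfl⟩ := (h.deg_zero x).1 (by omega)
  obtain ⟨l, rfl⟩ := (h.deg_zero y).1 (by omega)
  rw [← map_mul, ← map_zero ι] at e
  rcases mul_eq_zero.1 (h.inj e) with rfl | rfl
  · exact hx (map_zero ι)
  · exact hy (map_zero ι)

theorem deg_neg (h : DegRing ι deg π) (x : R) : deg (-x) = deg x := by
  by_cases hx : x = 0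
  · rw [hx, neg_zero]
  · have h1 : -x = ι (-1) * x := by rw [map_neg, map_one, neg_mul, one_mul]
    rw [h1, h.deg_mul _ _ (h.coe_ne (neg_ne_zero.2 one_ne_zero)) hx, h.deg_coe, zero_add]

theorem deg_coe_mul (h : DegRing ι deg π) {k : K} (hk : k ≠ 0) (x : R) :
    deg (ι k * x) = deg x := by
  by_cases hx : x = 0
  · rw [hx, mul_zero]
  · rw [h.deg_mul _ _ (h.coe_ne hk) hx, h.deg_coe, zero_add]

theorem deg_coe_mul_le (h : DegRing ι deg π) (k : K) (x : R) :
    deg (ι k * x) ≤ deg x := by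
  by_cases hk : k = 0
  · rw [hk, map_zero, zero_mul, h.deg_z]
    exact Nat.zero_le _
  · rw [h.deg_coe_mul hk]

theorem deg_add_lt (h : DegRing ι deg π) {x y : R} (hxy : deg y < deg x) :
    deg (x + y) = deg x := by
  apply le_antisymm
  · exact (h.deg_add x y).trans (by rw [max_eq_left hxy.le])
  · by_contra hlt
    push Not at hlt
    have h1 := h.deg_add (x + y) (-y)
    rw [add_neg_cancel_right, h.deg_neg] at h1
    exact absurd h1 (not_le.2 (max_lt hlt hxy))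

end DegRing

/-- the homomorphism to the invertible matrices -/
noncomputable def Phi (ι : K →+* R) :
    Am (mat : Tri (RingHom.id K) →* (Matrix (Fin 2) (Fin 2) K)ˣ) (beta ι) →*
      (Matrix (Fin 2) (Fin 2) R)ˣ :=
  Am.lift _ _ (jj ι) mat (fun c => by
    ext i j
    rw [jj_val, mat_val, mat_val]
    fin_cases i <;> fin_cases j <;> simp [beta])

theorem Phi_inl (a : (Matrix (Fin 2) (Fin 2) K)ˣ) : Phi ι (Am.inl _ _ a) = jj ι a :=
  Am.lift_inl _ _ _ _ _ _

theorem Phi_inr (b : Tri ι) : Phi ι (Am.inr _ _ b) = mat b :=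
  Am.lift_inr _ _ _ _ _ _

theorem Phi_inj (h : DegRing ι deg π) : Function.Injective (Phi ι) := by
  refine am_inj (Ω := Matrix (Fin 2) (Fin 2) R) (Phi ι)
    {M | (∃ k, ι k = M 0 0) ∧ (∃ k, ι k = M 1 0)}
    {M | deg (M 1 0) < deg (M 0 0)} {M | M 1 0 ≠ 0 ∧ deg (M 0 0) ≤ deg (M 1 0)} ?_ ?_ ?_ ?_ ?_ ?_
  · intro a ha
    rw [Phi_inl] at ha
    ext i j
    apply h.inj
    rw [← jj_val, ha, Units.val_one, Units.val_one, Matrix.one_apply, Matrix.one_apply]
    split_ifs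
    · rw [map_one]
    · rw [map_zero]
  · rintro a M ⟨⟨k, hk⟩, ⟨l, hl⟩⟩
    rw [Phi_inl, Units.smul_def, smul_eq_mul]
    refine ⟨⟨(a : Matrix (Fin 2) (Fin 2) K) 0 0 * k + (a : Matrix (Fin 2) (Fin 2) K) 0 1 * l, ?_⟩,
      ⟨(a : Matrix (Fin 2) (Fin 2) K) 1 0 * k + (a : Matrix (Fin 2) (Fin 2) K) 1 1 * l, ?_⟩⟩
    · rw [Matrix.mul_apply, Fin.sum_univ_two, jj_val, jj_val, ← hk, ← hl, map_add, map_mul, map_mul]
    · rw [Matrix.mul_apply, Fin.sum_univ_two, jj_val, jj_val, ← hk, ← hl, map_add, map_mul, map_mul]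
  · rintro M ⟨⟨k, hk⟩, ⟨l, hl⟩⟩ hM
    rw [Set.mem_setOf_eq, ← hk, h.deg_coe] at hM
    exact absurd hM (Nat.not_lt_zero _)
  · rintro b hb M ⟨hM0, hM⟩
    have hx : 0 < deg b.x := by
      rw [Nat.pos_iff_ne_zero]
      intro e
      obtain ⟨k, hk⟩ := (h.deg_zero _).1 e
      exact hb ⟨⟨b.a, k, b.d⟩, Tri.ext rfl hk rfl⟩
    rw [Phi_inr, Units.smul_def, smul_eq_mul, Set.mem_setOf_eq, Matrix.mul_apply, Matrix.mul_apply,
      Fin.sum_univ_two, Fin.sum_univ_two, mat_val]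
    simp only [Matrix.of_apply, Matrix.cons_val', Matrix.cons_val_zero, Matrix.cons_val_one,
      zero_mul, zero_add, Matrix.cons_val_fin_one]
    rw [h.deg_coe_mul b.d.ne_zero]
    have h1 : deg (b.x * M 1 0) = deg b.x + deg (M 1 0) := h.deg_mul _ _ (h.ne_zero hx) hM0
    have h2 : deg (ι b.a * M 0 0) = deg (M 0 0) := h.deg_coe_mul b.a.ne_zero _
    rw [add_comm, h.deg_add_lt (by omega)]
    omega
  · rintro a ha M hM
    rw [Set.mem_setOf_eq] at hM
    have h10 : (a : Matrix (Fin 2) (Fin 2) K) 1 0 ≠ 0 := fun e => ha (mem_range_mat a e)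
    rw [Phi_inl, Units.smul_def, smul_eq_mul, Set.mem_setOf_eq, Matrix.mul_apply, Matrix.mul_apply,
      Fin.sum_univ_two, Fin.sum_univ_two, jj_val, jj_val, jj_val, jj_val]
    have h1 : deg (ι ((a : Matrix (Fin 2) (Fin 2) K) 1 0) * M 0 0) = deg (M 0 0) :=
      h.deg_coe_mul h10 _
    have h2 : deg (ι ((a : Matrix (Fin 2) (Fin 2) K) 1 1) * M 1 0) ≤ deg (M 1 0) :=
      h.deg_coe_mul_le _ _
    have h3 := h.deg_add_lt (x := ι ((a : Matrix (Fin 2) (Fin 2) K) 1 0) * M 0 0)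
      (y := ι ((a : Matrix (Fin 2) (Fin 2) K) 1 1) * M 1 0) (by omega)
    refine ⟨h.ne_zero (by omega), ?_⟩
    rw [h3, h1]
    refine (h.deg_add _ _).trans (max_le (h.deg_coe_mul_le _ _) ((h.deg_coe_mul_le _ _).trans hM.le))
  · refine ⟨!![0, 0; 1, 0], ⟨⟨0, by simp⟩, ⟨1, by simp⟩⟩, ?_, ?_⟩
    · simp only [Matrix.of_apply, Matrix.cons_val', Matrix.cons_val_zero, Matrix.cons_val_one,
        Matrix.cons_val_fin_one]
      rw [← map_one ι]
      exact h.coe_ne one_ne_zero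
    · simp only [Matrix.of_apply, Matrix.cons_val', Matrix.cons_val_zero, Matrix.cons_val_one,
        Matrix.cons_val_fin_one]
      rw [h.deg_z]
      exact Nat.zero_le _

/-- the subgroup of the invertible matrices over `R` generated by the invertible matrices over `K`
and the elementary matrices -/
def GE2 (ι : K →+* R) : Subgroup (Matrix (Fin 2) (Fin 2) R)ˣ :=
  Subgroup.closure (Set.range (Units.map
    (ι.mapMatrix : Matrix (Fin 2) (Fin 2) K →+* Matrix (Fin 2) (Fin 2) R).toMonoidHom) ∪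
    {u | ∃ x : R, (u : Matrix (Fin 2) (Fin 2) R) = !![1, x; 0, 1]})

theorem GE2_le : GE2 ι ≤ (Phi ι).range := by
  refine (Subgroup.closure_le _).2 ?_
  rintro u (⟨a, rfl⟩ | ⟨x, hx⟩)
  · exact ⟨Am.inl _ _ a, Phi_inl a⟩
  · refine ⟨Am.inr _ _ ⟨1, x, 1⟩, ?_⟩
    rw [Phi_inr]
    ext1
    rw [mat_val, hx]
    simp

theorem range_mem (hC : ClosedE C) (hsol : ∀ (S : Type) [Group S], Group.IsSolvable S → C S)
    (h : DegRing ι deg π) (hK : C (Matrix (Fin 2) (Fin 2) K)ˣ) : C (Phi ι).range :=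
  hC.base.of_injective _ _ (MonoidHom.ofInjective (Phi_inj h)).symm.toMonoidHom
    (MonoidHom.ofInjective (Phi_inj h)).symm.injective (amal_mem hC hsol h hK)

/-- **the group `GE_2`** -/
theorem GE2_mem (hC : ClosedE C) (hsol : ∀ (S : Type) [Group S], Group.IsSolvable S → C S)
    (h : DegRing ι deg π) (hK : C (Matrix (Fin 2) (Fin 2) K)ˣ) : C (GE2 ι) :=
  hC.base.of_injective _ _ (Subgroup.inclusion GE2_le) (Subgroup.inclusion_injective GE2_le)
    (range_mem hC hsol h hK)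

/-! ### rings with division -/

/-- division with remainder -/
def HasDiv (deg : R → ℕ) : Prop :=
  ∀ f g : R, g ≠ 0 → ∃ q, f - q * g = 0 ∨ deg (f - q * g) < deg g

/-- it suffices to lower the degree -/
theorem hasDiv_of (h : ∀ f g : R, f ≠ 0 → g ≠ 0 → deg g ≤ deg f → ∃ t, f - t * g = 0 ∨ deg (f - t * g) < deg f) :
    HasDiv deg := by
  intro f g hg
  have key : ∀ n, ∀ f, deg f ≤ n → ∃ q, f - q * g = 0 ∨ deg (f - q * g) < deg g := by
    intro n
    induction n with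
    | zero =>
      intro f hf
      by_cases hf0 : f = 0
      · exact ⟨0, Or.inl (by rw [hf0, zero_mul, sub_zero])⟩
      by_cases hlt : deg f < deg g
      · exact ⟨0, Or.inr (by rwa [zero_mul, sub_zero])⟩
      · obtain ⟨t, ht | ht⟩ := h f g hf0 hg (not_lt.1 hlt)
        · exact ⟨t, Or.inl ht⟩
        · omega
    | succ n ih =>
      intro f hf
      by_cases hf0 : f = 0
      · exact ⟨0, Or.inl (by rw [hf0, zero_mul, sub_zero])⟩
      by_cases hlt : deg f < deg g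
      · exact ⟨0, Or.inr (by rwa [zero_mul, sub_zero])⟩
      · obtain ⟨t, ht | ht⟩ := h f g hf0 hg (not_lt.1 hlt)
        · exact ⟨t, Or.inl ht⟩
        · obtain ⟨q, hq⟩ := ih (f - t * g) (by omega)
          have e : f - t * g - q * g = f - (t + q) * g := by rw [add_mul, sub_sub]
          rw [e] at hq
          exact ⟨t + q, hq⟩
  exact key _ f le_rfl

/-- a triangular invertible matrix -/
theorem tri_mem (h : DegRing ι deg π) (u : (Matrix (Fin 2) (Fin 2) R)ˣ)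
    (hu : (u : Matrix (Fin 2) (Fin 2) R) 1 0 = 0) : u ∈ (Phi ι).range := by
  have h01 : (0 : R) ≠ 1 := fun e => h.coe_ne (one_ne_zero (α := K)) (by rw [map_one, e])
  have e1 : (u : Matrix (Fin 2) (Fin 2) R) * ((u⁻¹ : (Matrix (Fin 2) (Fin 2) R)ˣ) :
    Matrix (Fin 2) (Fin 2) R) = 1 := Units.mul_inv u
  have e2 : ((u⁻¹ : (Matrix (Fin 2) (Fin 2) R)ˣ) : Matrix (Fin 2) (Fin 2) R) *
    (u : Matrix (Fin 2) (Fin 2) R) = 1 := Units.inv_mul u
  have h3 := congrFun (congrFun e1 1) 1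
  have h4 := congrFun (congrFun e2 0) 0
  simp only [Matrix.mul_apply, Fin.sum_univ_two, hu, zero_mul, zero_add, mul_zero, add_zero,
    Matrix.one_apply_eq] at h3 h4
  have h5 : (u : Matrix (Fin 2) (Fin 2) R) 1 1 ≠ 0 := by
    intro h6
    rw [h6, zero_mul] at h3
    exact h01 h3
  have h5' : ((u⁻¹ : (Matrix (Fin 2) (Fin 2) R)ˣ) : Matrix (Fin 2) (Fin 2) R) 1 1 ≠ 0 := by
    intro h6
    rw [h6, mul_zero] at h3
    exact h01 h3
  have h6 : (u : Matrix (Fin 2) (Fin 2) R) 0 0 ≠ 0 := by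
    intro h6
    rw [h6, mul_zero] at h4
    exact h01 h4
  have h6' : ((u⁻¹ : (Matrix (Fin 2) (Fin 2) R)ˣ) : Matrix (Fin 2) (Fin 2) R) 0 0 ≠ 0 := by
    intro h6
    rw [h6, zero_mul] at h4
    exact h01 h4
  have d1 := h.deg_mul _ _ h5 h5'
  have d2 := h.deg_mul _ _ h6' h6
  rw [h3, ← map_one ι, h.deg_coe] at d1
  rw [h4, ← map_one ι, h.deg_coe] at d2
  obtain ⟨k, hk⟩ := (h.deg_zero _).1 (show deg ((u : Matrix (Fin 2) (Fin 2) R) 0 0) = 0 by omega)
  obtain ⟨l, hl⟩ := (h.deg_zero _).1 (show deg ((u : Matrix (Fin 2) (Fin 2) R) 1 1) = 0 by omega)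
  have hk0 : k ≠ 0 := by
    rintro rfl
    rw [map_zero] at hk
    exact h6 hk.symm
  have hl0 : l ≠ 0 := by
    rintro rfl
    rw [map_zero] at hl
    exact h5 hl.symm
  refine ⟨Am.inr _ _ ⟨Units.mk0 k hk0, (u : Matrix (Fin 2) (Fin 2) R) 0 1, Units.mk0 l hl0⟩, ?_⟩
  rw [Phi_inr]
  ext i j
  rw [mat_val]
  fin_cases i <;> fin_cases j <;> simp [hu, hk, hl]

theorem elem_mem (x : R) : mat (⟨1, x, 1⟩ : Tri ι) ∈ (Phi ι).range :=
  ⟨Am.inr _ _ ⟨1, x, 1⟩, Phi_inr _⟩

/-- the matrix which interchanges the coordinates -/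
def swp (K : Type) [DivisionRing K] : (Matrix (Fin 2) (Fin 2) K)ˣ where
  val := !![0, 1; 1, 0]
  inv := !![0, 1; 1, 0]
  val_inv := by
    rw [Matrix.mul_fin_two]
    ext i j
    fin_cases i <;> fin_cases j <;> simp
  inv_val := by
    rw [Matrix.mul_fin_two]
    ext i j
    fin_cases i <;> fin_cases j <;> simp

/-- **Euclid** -/
theorem range_top (h : DegRing ι deg π) (hd : HasDiv deg) : (Phi ι).range = ⊤ := by
  have key : ∀ n, ∀ u : (Matrix (Fin 2) (Fin 2) R)ˣ,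
      deg ((u : Matrix (Fin 2) (Fin 2) R) 1 0) ≤ n → u ∈ (Phi ι).range := by
    intro n
    have step : ∀ u : (Matrix (Fin 2) (Fin 2) R)ˣ, (u : Matrix (Fin 2) (Fin 2) R) 1 0 ≠ 0 →
        (∀ v : (Matrix (Fin 2) (Fin 2) R)ˣ, deg ((v : Matrix (Fin 2) (Fin 2) R) 1 0) <
          deg ((u : Matrix (Fin 2) (Fin 2) R) 1 0) → v ∈ (Phi ι).range) → u ∈ (Phi ι).range := by
      intro u hu hv
      obtain ⟨q, hq⟩ := hd ((u : Matrix (Fin 2) (Fin 2) R) 0 0)
        ((u : Matrix (Fin 2) (Fin 2) R) 1 0) hu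
      have h1 : jj ι (swp K) ∈ (Phi ι).range := ⟨Am.inl _ _ _, Phi_inl _⟩
      have h2 := elem_mem (ι := ι) (-q)
      have h3 : ((jj ι (swp K) * mat (⟨1, -q, 1⟩ : Tri ι) * u :
          (Matrix (Fin 2) (Fin 2) R)ˣ) : Matrix (Fin 2) (Fin 2) R) 1 0 =
          (u : Matrix (Fin 2) (Fin 2) R) 0 0 - q * (u : Matrix (Fin 2) (Fin 2) R) 1 0 := by
        rw [Units.val_mul, Units.val_mul, Matrix.mul_apply, Fin.sum_univ_two, Matrix.mul_apply,
          Fin.sum_univ_two, Matrix.mul_apply, Fin.sum_univ_two, jj_val, jj_val, mat_val]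
        simp [swp, sub_eq_add_neg]
      have h4 : jj ι (swp K) * mat (⟨1, -q, 1⟩ : Tri ι) * u ∈ (Phi ι).range := by
        rcases hq with hq | hq
        · exact tri_mem h _ (by rw [h3, hq])
        · exact hv _ (by rw [h3]; exact hq)
      exact (Subgroup.mul_mem_cancel_left _ (mul_mem h1 h2)).1 h4
    induction n with
    | zero =>
      intro u hu
      by_cases h0 : (u : Matrix (Fin 2) (Fin 2) R) 1 0 = 0
      · exact tri_mem h u h0
      · exact step u h0 fun v hv => by omega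
    | succ n ih =>
      intro u hu
      by_cases h0 : (u : Matrix (Fin 2) (Fin 2) R) 1 0 = 0
      · exact tri_mem h u h0
      · exact step u h0 fun v hv => ih v (by omega)
  rw [eq_top_iff]
  exact fun u _ => key _ u le_rfl

/-- **rings with division** -/
theorem GL2_mem (hC : ClosedE C) (hsol : ∀ (S : Type) [Group S], Group.IsSolvable S → C S)
    (h : DegRing ι deg π) (hd : HasDiv deg) (hK : C (Matrix (Fin 2) (Fin 2) K)ˣ) :
    C (Matrix (Fin 2) (Fin 2) R)ˣ := by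
  have h1 := range_mem hC hsol h hK
  rw [range_top h hd] at h1
  exact hC.base.of_injective _ _
    (Subgroup.topEquiv (G := (Matrix (Fin 2) (Fin 2) R)ˣ)).symm.toMonoidHom
    (Subgroup.topEquiv (G := (Matrix (Fin 2) (Fin 2) R)ˣ)).symm.injective h1

end Run7.h909.GE
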