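import Pool.Agent.Run7.h909.GE.Ping

/-!
# Polynomials and skew polynomials over division rings

Owner helper909.
-/

set_option autoImplicit false

open Pool.Agent.Y110.FJ

namespace Run7.h909.GE

variable {C : ∀ (G : Type) [Group G], Prop}

/-! ### polynomials -/

section poly

open Polynomial

variable (K : Type) [DivisionRing K]

theorem poly_deg : DegRing (Polynomial.C : K →+* K[X]) Polynomial.natDegree
    (Polynomial.constantCoeff : K[X] →+* K).toAddMonoidHom where
  deg_zero x := Polynomial.natDegree_eq_zero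
  deg_add x y := Polynomial.natDegree_add_le x y
  deg_mul x y hx hy := Polynomial.natDegree_mul hx hy
  pi_coe k := by simp
  pi_left k x := by simp
  pi_right x k := by simp

theorem poly_div : HasDiv (Polynomial.natDegree : K[X] → ℕ) := by
  classical
  refine hasDiv_of fun f g hf hg hle => ?_
  obtain ⟨t, ht⟩ : ∃ t : K[X], t = Polynomial.monomial (f.natDegree - g.natDegree)
      (f.leadingCoeff * g.leadingCoeff⁻¹) := ⟨_, rfl⟩
  have hf0 : f.leadingCoeff ≠ 0 := Polynomial.leadingCoeff_ne_zero.2 hf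
  have hg0 : g.leadingCoeff ≠ 0 := Polynomial.leadingCoeff_ne_zero.2 hg
  have ht0 : t ≠ 0 := by
    rw [ht, Ne, Polynomial.monomial_eq_zero_iff]
    exact mul_ne_zero hf0 (inv_ne_zero hg0)
  have hdeg : t.natDegree = f.natDegree - g.natDegree := by
    rw [ht, Polynomial.natDegree_monomial, if_neg (mul_ne_zero hf0 (inv_ne_zero hg0))]
  have hlc : (t * g).leadingCoeff = f.leadingCoeff := by
    rw [Polynomial.leadingCoeff_mul, ht, Polynomial.leadingCoeff_monomial, mul_assoc,
      inv_mul_cancel₀ hg0, mul_one]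
  have hd : (t * g).natDegree = f.natDegree := by
    rw [Polynomial.natDegree_mul ht0 hg, hdeg]
    omega
  refine ⟨t, ?_⟩
  by_cases h0 : f - t * g = 0
  · exact Or.inl h0
  · right
    have h1 : f.degree = (t * g).degree := by
      rw [Polynomial.degree_eq_natDegree hf, Polynomial.degree_eq_natDegree (mul_ne_zero ht0 hg), hd]
    have h2 := Polynomial.degree_sub_lt_left h1 hf hlc.symm
    exact Polynomial.natDegree_lt_natDegree h0 h2

end poly

/-! ### skew polynomials -/

section skew

open SkewPolynomial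

variable {K : Type} [DivisionRing K] [MulSemiringAction (Multiplicative ℕ) K]

theorem sk_coeff_add (p q : SkewPolynomial K) (n : ℕ) :
    (p + q).coeff n = p.coeff n + q.coeff n := by
  simp [SkewPolynomial.coeff]

theorem sk_coeff_sum {ι : Type} (s : Finset ι) (f : ι → SkewPolynomial K) (n : ℕ) :
    (∑ i ∈ s, f i).coeff n = ∑ i ∈ s, (f i).coeff n := by
  classical
  induction s using Finset.induction_on with
  | empty => simp
  | insert a s ha ih => rw [Finset.sum_insert ha, Finset.sum_insert ha, sk_coeff_add, ih]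

theorem sk_coeff_mul (p q : SkewPolynomial K) (n : ℕ) :
    (p * q).coeff n = ∑ a ∈ p.support, ∑ b ∈ q.support,
      if a + b = n then p.coeff a * φ^[a] (q.coeff b) else 0 := by
  rw [SkewPolynomial.mul_def, SkewPolynomial.sum_def, sk_coeff_sum]
  refine Finset.sum_congr rfl fun a _ => ?_
  rw [SkewPolynomial.sum_def, sk_coeff_sum]
  exact Finset.sum_congr rfl fun b _ => SkewPolynomial.coeff_monomial

theorem phi_ne {a : ℕ} {x : K} (hx : x ≠ 0) : (φ^[a] x : K) ≠ 0 := by
  rw [SkewPolynomial.φ_iterate_apply]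
  intro h
  exact hx ((map_eq_zero (MulSemiringAction.toRingHom (Multiplicative ℕ) K
    (Multiplicative.ofAdd a))).1 h)

/-- the degree -/
def sdeg (p : SkewPolynomial K) : ℕ := p.support.sup id

theorem sdeg_le_iff (p : SkewPolynomial K) (n : ℕ) : sdeg p ≤ n ↔ ∀ m, n < m → p.coeff m = 0 := by
  constructor
  · intro h m hm
    by_contra hne
    have h1 : m ≤ sdeg p := Finset.le_sup (f := id) (SkewPolynomial.mem_support_iff.2 hne)
    omega
  · intro h
    refine Finset.sup_le fun m hm => ?_
    by_contra hne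
    exact SkewPolynomial.mem_support_iff.1 hm (h m (not_le.1 hne))

theorem coeff_sdeg {p : SkewPolynomial K} (hp : p ≠ 0) : p.coeff (sdeg p) ≠ 0 := by
  have h1 : p.support.Nonempty := by
    rw [Finset.nonempty_iff_ne_empty]
    intro h
    exact hp (SkewPolynomial.support_eq_empty.1 h)
  obtain ⟨m, hm, hm'⟩ := Finset.exists_mem_eq_sup p.support h1 id
  have h2 : sdeg p = m := hm'
  rw [h2]
  exact SkewPolynomial.mem_support_iff.1 hm

theorem coeff_zero_of {p : SkewPolynomial K} {m : ℕ} (h : sdeg p < m) : p.coeff m = 0 :=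
  (sdeg_le_iff p (sdeg p)).1 le_rfl m h

theorem coeff_mul_top (p q : SkewPolynomial K) :
    (p * q).coeff (sdeg p + sdeg q) = p.coeff (sdeg p) * φ^[sdeg p] (q.coeff (sdeg q)) := by
  by_cases hp : p = 0
  · rw [hp, zero_mul, SkewPolynomial.coeff_zero, SkewPolynomial.coeff_zero, zero_mul]
  by_cases hq : q = 0
  · rw [hq, mul_zero, SkewPolynomial.coeff_zero, SkewPolynomial.coeff_zero,
      SkewPolynomial.φ_iterate_apply, smul_zero, mul_zero]
  rw [sk_coeff_mul, Finset.sum_eq_single (sdeg p), Finset.sum_eq_single (sdeg q)]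
  · rw [if_pos rfl]
  · intro b _ hb
    rw [if_neg]
    omega
  · intro h
    exact absurd (SkewPolynomial.mem_support_iff.2 (coeff_sdeg hq)) h
  · intro a ha hne
    refine Finset.sum_eq_zero fun b hb => ?_
    rw [if_neg]
    have h1 : a ≤ sdeg p := Finset.le_sup (f := id) ha
    have h2 : b ≤ sdeg q := Finset.le_sup (f := id) hb
    omega
  · intro h
    exact absurd (SkewPolynomial.mem_support_iff.2 (coeff_sdeg hp)) h

theorem sdeg_mul_le (p q : SkewPolynomial K) : sdeg (p * q) ≤ sdeg p + sdeg q := by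
  rw [sdeg_le_iff]
  intro m hm
  rw [sk_coeff_mul]
  refine Finset.sum_eq_zero fun a ha => Finset.sum_eq_zero fun b hb => ?_
  rw [if_neg]
  have h1 : a ≤ sdeg p := Finset.le_sup (f := id) ha
  have h2 : b ≤ sdeg q := Finset.le_sup (f := id) hb
  omega

theorem sdeg_mul {p q : SkewPolynomial K} (hp : p ≠ 0) (hq : q ≠ 0) :
    sdeg (p * q) = sdeg p + sdeg q := by
  apply le_antisymm (sdeg_mul_le p q)
  by_contra hlt
  have h1 := coeff_zero_of (not_le.1 hlt)
  rw [coeff_mul_top] at h1
  exact mul_ne_zero (coeff_sdeg hp) (phi_ne (coeff_sdeg hq)) h1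

theorem sdeg_add_le (p q : SkewPolynomial K) : sdeg (p + q) ≤ max (sdeg p) (sdeg q) := by
  rw [sdeg_le_iff]
  intro m hm
  rw [sk_coeff_add, coeff_zero_of (lt_of_le_of_lt (le_max_left _ _) hm),
    coeff_zero_of (lt_of_le_of_lt (le_max_right _ _) hm), add_zero]

/-- the constant coefficient -/
def cc : SkewPolynomial K →+ K where
  toFun p := p.coeff 0
  map_zero' := rfl
  map_add' p q := sk_coeff_add p q 0

theorem cc_mul (p q : SkewPolynomial K) : (p * q).coeff 0 = p.coeff 0 * q.coeff 0 := by
  rw [sk_coeff_mul]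
  have h1 : ∀ a ∈ p.support, ∀ b ∈ q.support, (if a + b = 0 then p.coeff a * φ^[a] (q.coeff b)
      else 0) = if a = 0 then (if b = 0 then p.coeff 0 * q.coeff 0 else 0) else 0 := by
    intro a _ b _
    by_cases ha : a = 0
    · by_cases hb : b = 0
      · rw [ha, hb, if_pos rfl, if_pos rfl, if_pos rfl]
        rfl
      · rw [if_neg (by omega), if_pos ha, if_neg hb]
    · rw [if_neg (by omega), if_neg ha]
  rw [Finset.sum_congr rfl fun a ha => Finset.sum_congr rfl fun b hb => h1 a ha b hb]
  by_cases hp : p.coeff 0 = 0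
  · rw [hp, zero_mul]
    simp
  by_cases hq : q.coeff 0 = 0
  · rw [hq, mul_zero]
    simp
  rw [Finset.sum_eq_single 0, Finset.sum_eq_single 0, if_pos rfl, if_pos rfl]
  · intro b _ hb
    rw [if_pos rfl, if_neg hb]
  · intro h
    exact absurd (SkewPolynomial.mem_support_iff.2 hq) h
  · intro a _ ha
    exact Finset.sum_eq_zero fun b _ => if_neg ha
  · intro h
    exact absurd (SkewPolynomial.mem_support_iff.2 hp) h

theorem skew_deg : DegRing (SkewPolynomial.CRingHom : K →+* SkewPolynomial K) sdeg cc where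
  deg_zero x := by
    constructor
    · intro h
      refine ⟨x.coeff 0, ?_⟩
      ext n
      rw [SkewPolynomial.CRingHom_eq_C, SkewPolynomial.coeff_C]
      split_ifs with hn
      · rw [hn]
      · exact (coeff_zero_of (by rw [h]; exact Nat.pos_of_ne_zero hn)).symm
    · rintro ⟨k, rfl⟩
      rw [← Nat.le_zero, sdeg_le_iff]
      intro m hm
      rw [SkewPolynomial.CRingHom_eq_C, SkewPolynomial.coeff_C, if_neg (by omega)]
  deg_add x y := sdeg_add_le x y
  deg_mul x y hx hy := sdeg_mul hx hy
  pi_coe k := by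
    show (SkewPolynomial.CRingHom k).coeff 0 = k
    rw [SkewPolynomial.CRingHom_eq_C, SkewPolynomial.coeff_C_zero]
  pi_left k x := by
    show (SkewPolynomial.CRingHom k * x).coeff 0 = k * x.coeff 0
    rw [cc_mul, SkewPolynomial.CRingHom_eq_C, SkewPolynomial.coeff_C_zero]
  pi_right x k := by
    show (x * SkewPolynomial.CRingHom k).coeff 0 = x.coeff 0 * k
    rw [cc_mul, SkewPolynomial.CRingHom_eq_C, SkewPolynomial.coeff_C_zero]

theorem skew_div : HasDiv (sdeg : SkewPolynomial K → ℕ) := by
  refine hasDiv_of fun f g hf hg hle => ?_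
  obtain ⟨j, hj⟩ : ∃ j, j + sdeg g = sdeg f := ⟨sdeg f - sdeg g, by omega⟩
  obtain ⟨c, hc⟩ : ∃ c : K, c * φ^[j] (g.coeff (sdeg g)) = f.coeff (sdeg f) :=
    ⟨f.coeff (sdeg f) * (φ^[j] (g.coeff (sdeg g)))⁻¹, by
      rw [mul_assoc, inv_mul_cancel₀ (phi_ne (coeff_sdeg hg)), mul_one]⟩
  have hc0 : c ≠ 0 := by
    rintro rfl
    rw [zero_mul] at hc
    exact coeff_sdeg hf hc.symm
  obtain ⟨t, ht⟩ : ∃ t : SkewPolynomial K, t = SkewPolynomial.monomial j c := ⟨_, rfl⟩
  have hts : t.support = {j} := by
    rw [ht, SkewPolynomial.support_monomial j hc0]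
  have htd : sdeg t = j := by
    unfold sdeg
    rw [hts, Finset.sup_singleton, id]
  have htc : t.coeff j = c := by
    rw [ht, SkewPolynomial.coeff_monomial, if_pos rfl]
  have ht0 : t ≠ 0 := by
    rintro rfl
    rw [SkewPolynomial.coeff_zero] at htc
    exact hc0 htc.symm
  refine ⟨t, ?_⟩
  by_cases h0 : f - t * g = 0
  · exact Or.inl h0
  right
  have hsum : f - t * g + t * g = f := sub_add_cancel _ _
  have hcf : ∀ m, (f - t * g).coeff m = f.coeff m - (t * g).coeff m := by
    intro m
    rw [eq_sub_iff_add_eq, ← sk_coeff_add, hsum]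
  have htop : (t * g).coeff (sdeg f) = f.coeff (sdeg f) := by
    have h1 := coeff_mul_top t g
    rw [htd, hj, htc, hc] at h1
    exact h1
  have h1 : sdeg (f - t * g) ≤ sdeg f := by
    rw [sdeg_le_iff]
    intro m hm
    rw [hcf, coeff_zero_of hm, coeff_zero_of (lt_of_le_of_lt (sdeg_mul_le t g) (by omega)), sub_zero]
  refine lt_of_le_of_ne h1 fun e => ?_
  have h2 := coeff_sdeg h0
  rw [e, hcf, htop, sub_self] at h2
  exact h2 rfl

end skew

end Run7.h909.GE
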