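import Pool.Agent.Run7.h909.GE.Amal

/-!
# The group generated by `GL_2` of a division ring and the elementary matrices

Owner helper909.
-/

set_option autoImplicit false

open Pool.Agent.Y110.FJ
open Pool.Agent.Y462.SS (Closed)
open Pool.Agent.Y462.PA (Am)

namespace Run7.h909.GE

variable {C : ∀ (G : Type) [Group G], Prop}

/-- The ring `R` contains the division ring `K` as its elements of degree `0`, the degree of a product
of nonzero elements is the sum of the degrees, and `R` is the direct sum of `K` and a sub-bimodule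
(the kernel of `π`). -/
structure DegRing {K R : Type} [DivisionRing K] [Ring R] (ι : K →+* R) (deg : R → ℕ) (π : R →+ K) :
    Prop where
  deg_zero : ∀ x, deg x = 0 ↔ ∃ k, ι k = x
  deg_add : ∀ x y, deg (x + y) ≤ max (deg x) (deg y)
  deg_mul : ∀ x y, x ≠ 0 → y ≠ 0 → deg (x * y) = deg x + deg y
  pi_coe : ∀ k, π (ι k) = k
  pi_left : ∀ k x, π (ι k * x) = k * π x
  pi_right : ∀ x k, π (x * ι k) = π x * k

/-- triangular matrices with entry `x` in `R` and diagonal entries in `K` -/
@[ext] structure Tri {K R : Type} [DivisionRing K] [Ring R] (ι : K →+* R) where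
  a : Kˣ
  x : R
  d : Kˣ

namespace Tri

variable {K R : Type} [DivisionRing K] [Ring R] {ι : K →+* R}

instance : Mul (Tri ι) := ⟨fun g h => ⟨g.a * h.a, ι g.a * h.x + g.x * ι h.d, g.d * h.d⟩⟩
instance : One (Tri ι) := ⟨⟨1, 0, 1⟩⟩
instance : Inv (Tri ι) :=
  ⟨fun g => ⟨g.a⁻¹, -(ι ((g.a⁻¹ : Kˣ) : K) * g.x * ι ((g.d⁻¹ : Kˣ) : K)), g.d⁻¹⟩⟩

@[simp] theorem mul_a (g h : Tri ι) : (g * h).a = g.a * h.a := rfl
@[simp] theorem mul_d (g h : Tri ι) : (g * h).d = g.d * h.d := rfl
@[simp] theorem mul_x (g h : Tri ι) : (g * h).x = ι g.a * h.x + g.x * ι h.d := rfl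
@[simp] theorem one_a : (1 : Tri ι).a = 1 := rfl
@[simp] theorem one_d : (1 : Tri ι).d = 1 := rfl
@[simp] theorem one_x : (1 : Tri ι).x = 0 := rfl
@[simp] theorem inv_a (g : Tri ι) : (g⁻¹).a = g.a⁻¹ := rfl
@[simp] theorem inv_d (g : Tri ι) : (g⁻¹).d = g.d⁻¹ := rfl
@[simp] theorem inv_x (g : Tri ι) :
    (g⁻¹).x = -(ι ((g.a⁻¹ : Kˣ) : K) * g.x * ι ((g.d⁻¹ : Kˣ) : K)) := rfl

instance : Group (Tri ι) :=
  Group.ofLeftAxioms
    (fun a b c => by
      ext
      · simp [mul_assoc]
      · simp only [mul_x, mul_a, mul_d, Units.val_mul, map_mul, mul_add, add_mul, mul_assoc,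
          add_assoc]
      · simp [mul_assoc])
    (fun a => by ext <;> simp)
    (fun a => by
      ext
      · simp
      · rw [mul_x, inv_a, inv_x, one_x, neg_mul, mul_assoc _ _ (ι (a.d : K)), ← map_mul,
          Units.inv_mul, map_one, mul_one, add_neg_cancel]
      · simp)

/-- the matrix -/
def mat0 : Tri ι →* Matrix (Fin 2) (Fin 2) R where
  toFun g := !![ι g.a, g.x; 0, ι g.d]
  map_one' := by
    ext i j
    fin_cases i <;> fin_cases j <;> simp
  map_mul' g h := by
    rw [Matrix.mul_fin_two]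
    ext i j
    fin_cases i <;> fin_cases j <;> simp

/-- the invertible matrix -/
def mat : Tri ι →* (Matrix (Fin 2) (Fin 2) R)ˣ := mat0.toHomUnits

theorem mat_val (g : Tri ι) : ((mat g : (Matrix (Fin 2) (Fin 2) R)ˣ) : Matrix (Fin 2) (Fin 2) R) =
    !![ι g.a, g.x; 0, ι g.d] := rfl

theorem mat_inv_val (g : Tri ι) : (((mat g)⁻¹ : (Matrix (Fin 2) (Fin 2) R)ˣ) :
    Matrix (Fin 2) (Fin 2) R) = !![ι ((g⁻¹).a : K), (g⁻¹).x; 0, ι ((g⁻¹).d : K)] := by
  rw [← map_inv, mat_val]

/-- the matrices with entries in `K` -/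
def jj (ι : K →+* R) : (Matrix (Fin 2) (Fin 2) K)ˣ →* (Matrix (Fin 2) (Fin 2) R)ˣ :=
  Units.map (ι.mapMatrix : Matrix (Fin 2) (Fin 2) K →+* Matrix (Fin 2) (Fin 2) R).toMonoidHom

theorem jj_val (u : (Matrix (Fin 2) (Fin 2) K)ˣ) (i j : Fin 2) :
    ((jj ι u : (Matrix (Fin 2) (Fin 2) R)ˣ) : Matrix (Fin 2) (Fin 2) R) i j =
      ι ((u : Matrix (Fin 2) (Fin 2) K) i j) := rfl

/-- the triangular matrices with entries in `K` -/
def beta (ι : K →+* R) : Tri (RingHom.id K) →* Tri ι where
  toFun g := ⟨g.a, ι g.x, g.d⟩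
  map_one' := by ext <;> simp
  map_mul' g h := by ext <;> simp

/-- the projection to the triangular matrices with entries in `K` -/
def sig (π : R →+ K) (h1 : ∀ k x, π (ι k * x) = k * π x) (h2 : ∀ x k, π (x * ι k) = π x * k) :
    Tri ι →* Tri (RingHom.id K) where
  toFun g := ⟨g.a, π g.x, g.d⟩
  map_one' := by ext <;> simp
  map_mul' g h := by ext <;> simp [h1, h2]

theorem mat_inj : Function.Injective (mat : Tri (RingHom.id K) →* _) := by
  intro g h e
  have e1 : ((mat g : (Matrix (Fin 2) (Fin 2) K)ˣ) : Matrix (Fin 2) (Fin 2) K) = mat h := by rw [e]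
  rw [mat_val, mat_val] at e1
  have h1 := congrFun (congrFun e1 0) 0
  have h2 := congrFun (congrFun e1 0) 1
  have h3 := congrFun (congrFun e1 1) 1
  simp at h1 h2 h3
  ext
  · exact h1
  · exact h2
  · exact h3

theorem mem_range_mat (u : (Matrix (Fin 2) (Fin 2) K)ˣ) (h : (u : Matrix (Fin 2) (Fin 2) K) 1 0 = 0) :
    u ∈ (mat : Tri (RingHom.id K) →* (Matrix (Fin 2) (Fin 2) K)ˣ).range := by
  have e1 : (u : Matrix (Fin 2) (Fin 2) K) * ((u⁻¹ : (Matrix (Fin 2) (Fin 2) K)ˣ) :
    Matrix (Fin 2) (Fin 2) K) = 1 := Units.mul_inv u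
  have e2 : ((u⁻¹ : (Matrix (Fin 2) (Fin 2) K)ˣ) : Matrix (Fin 2) (Fin 2) K) *
    (u : Matrix (Fin 2) (Fin 2) K) = 1 := Units.inv_mul u
  have h3 := congrFun (congrFun e1 1) 1
  have h4 := congrFun (congrFun e2 0) 0
  simp only [Matrix.mul_apply, Fin.sum_univ_two, h, zero_mul, zero_add, mul_zero, add_zero,
    Matrix.one_apply_eq] at h3 h4
  have h5 : (u : Matrix (Fin 2) (Fin 2) K) 1 1 ≠ 0 := by
    intro h6
    rw [h6, zero_mul] at h3
    exact zero_ne_one h3
  have h6 : (u : Matrix (Fin 2) (Fin 2) K) 0 0 ≠ 0 := by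
    intro h6
    rw [h6, mul_zero] at h4
    exact zero_ne_one h4
  refine ⟨⟨Units.mk0 _ h6, (u : Matrix (Fin 2) (Fin 2) K) 0 1, Units.mk0 _ h5⟩, ?_⟩
  ext i j
  rw [mat_val]
  fin_cases i <;> fin_cases j <;> simp [h]

end Tri

open Tri

section mem

variable {K R : Type} [DivisionRing K] [Ring R] {ι : K →+* R} {deg : R → ℕ} {π : R →+ K}

/-- conjugation -/
def cnj (ι : K →+* R) : (Matrix (Fin 2) (Fin 2) K)ˣ →*
    MulAut (Multiplicative (Matrix (Fin 2) (Fin 2) R)) where
  toFun u :=
    { toFun := fun m => Multiplicative.ofAdd ((jj ι u : (Matrix (Fin 2) (Fin 2) R)ˣ) *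
        Multiplicative.toAdd m * ((jj ι u)⁻¹ : (Matrix (Fin 2) (Fin 2) R)ˣ))
      invFun := fun m => Multiplicative.ofAdd (((jj ι u)⁻¹ : (Matrix (Fin 2) (Fin 2) R)ˣ) *
        Multiplicative.toAdd m * (jj ι u : (Matrix (Fin 2) (Fin 2) R)ˣ))
      left_inv := fun m => by simp [mul_assoc]
      right_inv := fun m => by simp [mul_assoc]
      map_mul' := fun m n => by simp [mul_add, add_mul] }
  map_one' := by
    ext m
    simp
  map_mul' u v := by
    ext m
    simp [mul_assoc]

/-- the part of a triangular matrix in the complement of `K` -/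
def npart (ι : K →+* R) (π : R →+ K) (g : Tri ι) : R :=
  (g.x - ι (π g.x)) * ι ((g.d⁻¹ : Kˣ) : K)

/-- the homomorphism on the triangular matrices -/
def fB (h : DegRing ι deg π) :
    Tri ι →* Multiplicative (Matrix (Fin 2) (Fin 2) R) ⋊[cnj ι] (Matrix (Fin 2) (Fin 2) K)ˣ where
  toFun g := ⟨Multiplicative.ofAdd !![0, npart ι π g; 0, 0],
    mat (sig π h.pi_left h.pi_right g)⟩
  map_one' := by
    refine SemidirectProduct.ext ?_ ?_
    · rw [SemidirectProduct.one_left]
      apply Multiplicative.toAdd.injective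
      change !![0, npart ι π 1; 0, 0] = 0
      have : npart ι π (1 : Tri ι) = 0 := by simp [npart]
      rw [this]
      ext i j
      fin_cases i <;> fin_cases j <;> simp
    · rw [SemidirectProduct.one_right]
      change mat (sig π h.pi_left h.pi_right 1) = 1
      rw [map_one, map_one]
  map_mul' g k := by
    refine SemidirectProduct.ext ?_ ?_
    · rw [SemidirectProduct.mul_left]
      apply Multiplicative.toAdd.injective
      change !![0, npart ι π (g * k); 0, 0] = !![0, npart ι π g; 0, 0] +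
        ((jj ι (mat (sig π h.pi_left h.pi_right g)) : (Matrix (Fin 2) (Fin 2) R)ˣ) :
          Matrix (Fin 2) (Fin 2) R) * !![0, npart ι π k; 0, 0] *
        (((jj ι (mat (sig π h.pi_left h.pi_right g)))⁻¹ : (Matrix (Fin 2) (Fin 2) R)ˣ) :
          Matrix (Fin 2) (Fin 2) R)
      have e1 : jj ι (mat (sig π h.pi_left h.pi_right g)) =
          mat (beta ι (sig π h.pi_left h.pi_right g)) := by
        ext i j
        rw [jj_val, mat_val, mat_val]
        fin_cases i <;> fin_cases j <;> simp [beta]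
      rw [e1, mat_val, mat_inv_val]
      have e2 : npart ι π (g * k) = npart ι π g + ι g.a * npart ι π k * ι ((g.d⁻¹ : Kˣ) : K) := by
        simp only [npart, mul_x, mul_d, map_add, h.pi_left, h.pi_right, map_mul, mul_inv_rev,
          Units.val_mul, sub_mul, mul_sub, add_mul, mul_assoc]
        rw [← mul_assoc (ι (k.d : K)), ← map_mul ι (k.d : K), Units.mul_inv, map_one, one_mul]
        abel
      rw [e2]
      ext i j
      fin_cases i <;> fin_cases j <;> simp [sig, beta]
    · rw [SemidirectProduct.mul_right]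
      change mat (sig π h.pi_left h.pi_right (g * k)) = _
      rw [map_mul, map_mul]

theorem fB_inj (h : DegRing ι deg π) : Function.Injective (fB h) := by
  rw [injective_iff_map_eq_one]
  intro g hg
  have h1 : mat (sig π h.pi_left h.pi_right g) = 1 := congrArg SemidirectProduct.right hg
  have h2 : (Multiplicative.ofAdd !![0, npart ι π g; 0, 0] :
    Multiplicative (Matrix (Fin 2) (Fin 2) R)) = 1 := congrArg SemidirectProduct.left hg
  have h3 : sig π h.pi_left h.pi_right g = 1 := mat_inj (h1.trans (map_one _).symm)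
  have h4 : g.a = 1 := congrArg Tri.a h3
  have h5 : g.d = 1 := congrArg Tri.d h3
  have h6 : π g.x = 0 := congrArg Tri.x h3
  have h7 : (!![0, npart ι π g; 0, 0] : Matrix (Fin 2) (Fin 2) R) = 0 :=
    congrArg Multiplicative.toAdd h2
  have h8 := congrFun (congrFun h7 0) 1
  simp [npart, h6, h5] at h8
  ext
  · rw [h4, one_a]
  · exact h8
  · rw [h5, one_d]

theorem fB_beta (h : DegRing ι deg π) (c : Tri (RingHom.id K)) :
    fB h (beta ι c) = SemidirectProduct.inr (mat c) := by
  refine SemidirectProduct.ext ?_ ?_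
  · rw [SemidirectProduct.left_inr]
    apply Multiplicative.toAdd.injective
    change !![0, npart ι π (beta ι c); 0, 0] = 0
    have : npart ι π (beta ι c) = 0 := by simp [npart, beta, h.pi_coe]
    rw [this]
    ext i j
    fin_cases i <;> fin_cases j <;> simp
  · rw [SemidirectProduct.right_inr]
    change mat (sig π h.pi_left h.pi_right (beta ι c)) = mat c
    congr 1
    ext
    · rfl
    · simp [sig, beta, h.pi_coe]
    · rfl

/-- the amalgamated product is in the class -/
theorem amal_mem (hC : ClosedE C) (hsol : ∀ (S : Type) [Group S], Group.IsSolvable S → C S)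
    (h : DegRing ι deg π) (hK : C (Matrix (Fin 2) (Fin 2) K)ˣ) :
    C (Am (mat : Tri (RingHom.id K) →* (Matrix (Fin 2) (Fin 2) K)ˣ) (beta ι)) := by
  refine am_mem _ _ hC (sdp_mem hC hsol (Group.isSolvable_of_comm fun a b => mul_comm a b)
    (cnj ι) hK) SemidirectProduct.inr (fB h) (fun c => (fB_beta h c).symm)
    SemidirectProduct.inr_injective (fB_inj h)

end mem

end Run7.h909.GE
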